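import Pool.Agent.V1161.Main
import Pool.Agent.H916K.Stick

/-!
# The pole of the `L`-function of diagonal hypersurfaces of all dimensions

Let `X` be a diagonal hypersurface `∑ c_i x_i ^ m = 0` over the rational numbers, or a product of
such hypersurfaces of the same degree `m`, with at most `N` variables altogether. Over the field
`ℚ(ζ_m)` the cohomology of `X` is the sum of the classes of linear sections and of lines `V(s)`,
where `s` is a multiset of pairs `(a_i, c_i)` of a nonzero residue modulo `m` and a coefficient; by
Weil the Frobenius elements act on `V(s)` through Gauss sums. `L(H^{2j}(X), s)` is the product of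
zeta functions and of the `L`-functions of one line from each orbit of `(ℤ/m)^*`, which are Hecke
`L`-functions; its pole at `s = j + 1` comes from the orbits of the lines on which the Galois group
acts trivially (Hecke: the others have no pole and no zero there). If all lines on which the Galois
group of `ℚ(ζ_m)` acts trivially are algebraic, then the order of the pole is the rank of the
group of algebraic cycles over `ℚ`.

The theorem: this is so, in all dimensions, for every degree `m` such that `lcm(2, m₀)` is good, `m₀`
being the part of `m` composed of the small primes, those below `c * N + 2`, where `c` is `1`, `2`,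
`2`, `4` if the greatest common divisor of `m` and `6` is `1`, `2`, `3`, `6`; for odd `m` the primes
`p` with `N + 2 ≤ p ≤ 19` are not counted as small. There is no condition on the other primes. For
a hypersurface of dimension `n` one has `N = n + 2`: for instance the theorem applies for `n ≤ 6`
and every odd `m`; for `n = 8` and every odd `m` not divisible by `55` or `77`; for every `n` and
every `m` whose prime factors are `2`, `3`, `5` and primes `≥ 4 * n + 10`.

The algebraic lines are those generated by the pairs `{a, -a}`, by the Hodge characters with four
entries, the curve products and the standard characters, under union and removing a pair (see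
`Pool.Agent.Results.MP_e12fcd_ag.FermatAllDimensions`).
-/

namespace Pool.Agent.Results.MP_058a58_ag.DiagonalAllDimensions

open Pool.Agent.H916R2 Pool.Agent.H916K Pool.Agent.Y2.Cv Pool.Agent.V1161

/-- Every line on which the Galois group of the field of `m`-th roots of unity acts trivially is
generated by algebraic lines. -/
theorem result (N m : ℕ) (hm : 2 ≤ m) (hgood : GoodDegree2 (Nat.lcm 2 (smallPart N m)))
    (s : Multiset (ZMod m × ℤ)) (hs : s ≠ 0) (hcard : Multiset.card s ≤ N)
    (heven : Even (Multiset.card s)) (h0 : ∀ z ∈ s, z.1 ≠ 0 ∧ z.2 ≠ 0)
    (hsum : (s.map Prod.fst).sum = 0) (hR : RationalClass m s) :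
    Generated (Nat.lcm 2 m) (SurfaceOrCurveProduct (Nat.lcm 2 m))
      (s.map fun z => ((Nat.lcm 2 m / m * z.1.val : ℕ) : ZMod (Nat.lcm 2 m))) := by
  have hH := hodge_of_rational hm (fun z hz => (h0 z hz).1) heven hsum (fun z hz => (h0 z hz).2) hR
  have h := uniform (N := N) (by omega) hgood (s.map Prod.fst) hH (by rwa [Multiset.card_map])
    (by rwa [Ne, Multiset.map_eq_zero])
  rw [Multiset.map_map] at h
  exact h

end Pool.Agent.Results.MP_058a58_ag.DiagonalAllDimensions
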