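import Pool.Agent.V11288.HS.EdgeX

/-!
# The pole of `L(X, s)` at `s = m + 1` and the partial Euler products

Let `X` be a projective variety of dimension `d` over a number field `K` (for example `K = ℚ`), `0 ≤ m ≤ d`, let
`S` be a set of primes of `K` (in the main case the primes of good reduction; the other Euler factors have no
influence on the order at `m + 1`), and let `α_{v,1}, …, α_{v,N}` be the eigenvalues of Frobenius on `H^{2m}(X)`
for `v ∈ S`. Let

`L(s) = ∏_{v ∈ S} ∏_j (1 - α_{v,j} q_v^{-s})⁻¹`, `Re s > m + 1`,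

`log P(Y) = ∑_{q_v^k ≤ Y} t_k(v) / (k q_v^{k (m+1)})`, `t_k(v) = ∑_j α_{v,j}^k`,

so that `P(Y)` is the partial Euler product at the point `m + 1` over all finite fields with at most `Y`
elements, and for real `r` and `A > 0` let `D(r, A)` be the mean square deviation

`D(r, A) = ∫_1^∞ (log P(Y) - r (log log Y + γ) - log A)² dY/Y ∈ [0, ∞]`.

Let `ℓ(s)` be the logarithm of `L(s)` on `Re s > m + 1`, real on the real axis. It is shown, WITHOUT any
assumption on a continuation of `L`: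

1. `D(r, A) = sup_{x > 0} (1/(2π)) ∫_{Re s = m + 1 + x} |ℓ(s) + r log (s - m - 1) - log A|² / |s - m - 1|² |ds|`
   (an equality in `[0, ∞]`).

2. If `D(r, A) ≤ C` then `|ℓ(s) + r log (s - m - 1) - log A|² ≤ C |s - m - 1|² / (2 Re (s - m - 1))` for all `s` with
   `Re s > m + 1`. Hence `(s - m - 1)^r L(s) → A` for real `s → m + 1`, if `D(r, A)` is finite: then `L` has a pole
   of order exactly `r` at `m + 1` in the sense of the problem, with leading coefficient `A`.

If `L` has a continuation to `Re s > m + 1 - η` of polynomial growth with at most a pole at `m + 1` (nothing is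
supposed on its zeros):

3. `D(r, A) < ∞` if and only if `L` has a pole of order exactly `r` at `m + 1` with leading coefficient `A`
   (if `-r > 0` a zero of this order); in this case

`D(r, A) = (1/π) ∫_{-∞}^∞ (log |L(m + 1 + it)| + r log |t| - log A)² dt/t²`.

So for the `X` with such a continuation the conjecture of Tate on the pole says exactly that the partial Euler
products `P(Y)` are equal to `A (e^γ log Y)^{rank}` in mean square for some `A > 0`, and then the total error is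
given exactly by `|L|` on the edge of the half plane of absolute convergence.
-/

set_option autoImplicit false

namespace Pool.Agent.Results.MP_058a58_ag.EdgeFormula

open Filter Topology Set NumberField IsDedekindDomain MeasureTheory

variable {K : Type} [Field K] [NumberField K] {n N : ℕ}

/-- The norm `q_v`. -/
noncomputable def nrm (v : HeightOneSpectrum (𝓞 K)) : ℕ := Ideal.absNorm v.asIdeal

/-- The set `X` of homogeneous polynomials over `𝓞_K` in `n` variables gives a projective variety over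
`K`.  For a field `κ` with `q` elements and a homomorphism `𝓞_K → κ` this is `(q - 1)` times the number
of the points of `X` with coordinates in `κ`: the number of the nonzero solutions of the equations. -/
noncomputable def cone (X : Set (MvPolynomial (Fin n) (𝓞 K))) {κ : Type} [Field κ]
    (φ : 𝓞 K →+* κ) : ℕ :=
  Nat.card {u : Fin n → κ // u ≠ 0 ∧ ∀ f ∈ X, MvPolynomial.eval₂ φ u f = 0}

/-- `α_1, …, α_N` are the eigenvalues of the geometric Frobenius at the prime `v` of `K` on `H^i(X)`,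
for a variety `X` of dimension `d`: there are finite multisets `β_k` of complex numbers of absolute
value `q_v^{k/2}`, `k = 0, …, 2d`, with `β_i = {α_1, …, α_N}`, such that for every finite extension
`κ` of the residue field of `v`, of degree `e`, the number of the points of `X` with coordinates in
`κ` is `∑ (-1)^k ∑_{z ∈ β_k} z^e`.  By the theorem of Deligne such `β_k` exist at almost all primes
if `X` is smooth, with `N` the `i`-th Betti number of `X`; for `k ≤ 2d` they are unique. -/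
def IsFrobenius (X : Set (MvPolynomial (Fin n) (𝓞 K))) (d i : ℕ)
    (v : HeightOneSpectrum (𝓞 K)) (α : Fin N → ℂ) : Prop :=
  ∃ β : ℕ → Multiset ℂ, β i = Finset.univ.val.map α ∧
    (∀ k, ∀ z ∈ β k, ‖z‖ = (nrm v : ℝ) ^ ((k : ℝ) / 2)) ∧
    ∀ (κ : Type) [Field κ] [Finite κ] (φ : 𝓞 K →+* κ) (e : ℕ), RingHom.ker φ = v.asIdeal →
      Nat.card κ = nrm v ^ e →
      (cone X φ : ℂ) = ((nrm v : ℂ) ^ e - 1) *
          ∑ k ∈ Finset.range (2 * d + 1), (-1 : ℂ) ^ k * ((β k).map (fun z => z ^ e)).sum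

variable {S : Set (HeightOneSpectrum (𝓞 K))}

/-- The Euler factor `∏_j (1 - α_{v,j} q_v^{-s})⁻¹`. -/
noncomputable def factor (α : S → Fin N → ℂ) (v : S) (s : ℂ) : ℂ :=
  ∏ j, (1 - α v j * (nrm v.1 : ℂ) ^ (-s))⁻¹

/-- `log P(Y)`: the sum of `t_k(v) / (k q_v^{k (m+1)})` over all primes `v ∈ S` and `k ≥ 1` (here
`k = p.2 + 1`) with `q_v^k ≤ Y`; `t_k(v) = ∑_j α_{v,j}^k` is a real number. -/
noncomputable def logP (m : ℕ) (α : S → Fin N → ℂ) (Y : ℝ) : ℝ :=
  ∑ᶠ (p : S × ℕ) (_ : (nrm p.1.1 : ℝ) ^ (p.2 + 1) ≤ Y),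
    (∑ j, α p.1 j ^ (p.2 + 1)).re / (((p.2 : ℝ) + 1) * ((nrm p.1.1 : ℝ) ^ (m + 1)) ^ (p.2 + 1))

/-- The mean square deviation `D(r, A) = ∫_1^∞ (log P(Y) - r (γ + log log Y) - log A)² dY/Y ∈ [0, ∞]`. -/
noncomputable def meanSquare (m : ℕ) (α : S → Fin N → ℂ) (r A : ℝ) : ENNReal :=
  ∫⁻ Y in Ioi (1 : ℝ), ENNReal.ofReal
    ((logP m α Y - r * (Real.eulerMascheroniConstant + Real.log (Real.log Y)) - Real.log A) ^ 2 / Y)

/-- `ℓ` is the logarithm of `L(s)` on the half plane `Re s > m + 1`: it is holomorphic there, `exp ℓ(s)` is the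
value of the Euler product, and `ℓ` is real on the real axis. -/
def IsLog (m : ℕ) (α : S → Fin N → ℂ) (ℓ : ℂ → ℂ) : Prop :=
  (∀ s : ℂ, (m : ℝ) + 1 < s.re → DifferentiableAt ℂ ℓ s ∧
    HasProd (fun v : S => factor α v s) (Complex.exp (ℓ s))) ∧
  ∀ x : ℝ, (m : ℝ) + 1 < x → (ℓ x).im = 0

/-- `∫ |ℓ(s) + r log (s - m - 1) - log A|² / |s - m - 1|² dt` over the line `s = m + 1 + x + t √-1`. -/
noncomputable def vertical (m : ℕ) (ℓ : ℂ → ℂ) (r A x : ℝ) : ENNReal :=
  ∫⁻ t : ℝ, ENNReal.ofReal (‖(ℓ (m + 1 + x + t * Complex.I) + r * Complex.log (x + t * Complex.I) -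
    Real.log A) / (x + t * Complex.I)‖ ^ 2)

/-- `L` is a continuation of the Euler product slightly beyond the edge: `L(s)` is the Euler product for
`Re s > m + 1`, and there are `η > 0`, `k` and a holomorphic function `G` of polynomial growth on
`Re s > m + 1 - η` with `G(s) = (s - m - 1)^k L(s)` for `s ≠ m + 1`. -/
def Continuation (m : ℕ) (α : S → Fin N → ℂ) (L : ℂ → ℂ) : Prop :=
  (∀ s : ℂ, (m : ℝ) + 1 < s.re → HasProd (fun v : S => factor α v s) (L s)) ∧
  ∃ (η C : ℝ) (k κ : ℕ) (G : ℂ → ℂ), 0 < η ∧ ∀ s : ℂ, (m : ℝ) + 1 - η < s.re →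
    DifferentiableAt ℂ G s ∧ ‖G s‖ ≤ C * (1 + ‖s‖) ^ κ ∧
      (s ≠ m + 1 → G s = (s - (m + 1)) ^ k * L s)

/-- `L(s)` has a pole of order exactly `k` at `m + 1` with leading coefficient `A` (if `k < 0`, a zero of order
`-k`): `(s - m - 1)^k L(s) → A` for complex `s → m + 1`. -/
def PoleAt (m : ℕ) (L : ℂ → ℂ) (k : ℤ) (A : ℝ) : Prop :=
  Tendsto (fun s : ℂ => (s - (m + 1)) ^ k * L s) (𝓝[≠] ((m : ℂ) + 1)) (𝓝 (A : ℂ))

open Pool.Agent.V11288

theorem edge_eq (m : ℕ) : HS.EX.edge (2 * m) = (m : ℝ) + 1 := by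
  unfold HS.EX.edge
  push_cast
  ring

theorem edge_eqc (m : ℕ) : ((HS.EX.edge (2 * m) : ℝ) : ℂ) = (m : ℂ) + 1 := by
  rw [edge_eq]
  push_cast
  rfl

theorem meanSquare_eq (m : ℕ) (α : S → Fin N → ℂ) (r A : ℝ) :
    meanSquare m α r A = HS.EX.meanSquare (2 * m) α r A := by
  unfold meanSquare HS.EX.meanSquare
  have h : ∀ Y, logP m α Y = HS.EX.logP (2 * m) α Y := by
    intro Y
    unfold logP HS.EX.logP
    rw [edge_eq]
    refine finsum_congr fun p => finsum_congr fun _ => ?_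
    have e : (nrm p.1.1 : ℝ) ^ (m + 1) = (HS.EX.nrm p.1.1 : ℝ) ^ ((m : ℝ) + 1) := by
      rw [← Real.rpow_natCast]
      push_cast
      rfl
    rw [e]
  simp only [h]

theorem vertical_eq (m : ℕ) (ℓ : ℂ → ℂ) (r A x : ℝ) :
    vertical m ℓ r A x = HS.EX.vertical (2 * m) ℓ r A x := by
  unfold vertical HS.EX.vertical
  rw [edge_eqc]

theorem isLog_iff (m : ℕ) (α : S → Fin N → ℂ) (ℓ : ℂ → ℂ) : IsLog m α ℓ ↔ HS.EX.IsLog (2 * m) α ℓ := by
  unfold IsLog HS.EX.IsLog
  rw [edge_eq]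
  exact Iff.rfl

theorem continuation_iff (m : ℕ) (α : S → Fin N → ℂ) (L : ℂ → ℂ) :
    Continuation m α L ↔ HS.EX.Continuation (2 * m) α L := by
  unfold Continuation HS.EX.Continuation
  rw [edge_eqc, edge_eq]
  exact Iff.rfl

/-- **The pole at `m + 1` and the partial Euler products.** -/
theorem result (X : Set (MvPolynomial (Fin n) (𝓞 K))) (d m : ℕ) (hm : m ≤ d)
    (α : S → Fin N → ℂ) (h : ∀ v, IsFrobenius X d (2 * m) v.1 (α v)) :
    ∃ ℓ : ℂ → ℂ, IsLog m α ℓ ∧ ∀ r A : ℝ, 0 < A →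
      meanSquare m α r A = ENNReal.ofReal (2 * Real.pi)⁻¹ * ⨆ (x : ℝ) (_ : 0 < x), vertical m ℓ r A x ∧
      (∀ C : ℝ, 0 ≤ C → meanSquare m α r A ≤ ENNReal.ofReal C → ∀ s : ℂ, (m : ℝ) + 1 < s.re →
        ‖ℓ s + r * Complex.log (s - (m + 1)) - Real.log A‖ ^ 2 ≤
          C * ‖s - (m + 1)‖ ^ 2 / (2 * (s.re - (m + 1)))) ∧
      (meanSquare m α r A < ⊤ → Tendsto (fun x : ℝ => ((x - (m + 1)) ^ r : ℝ) * Complex.exp (ℓ x))
        (𝓝[>] ((m : ℝ) + 1)) (𝓝 (A : ℂ))) ∧
      ∀ L : ℂ → ℂ, Continuation m α L →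
        (meanSquare m α r A < ⊤ ↔ ∃ k : ℤ, r = k ∧ PoleAt m L k A) ∧
        (meanSquare m α r A < ⊤ → meanSquare m α r A = ENNReal.ofReal Real.pi⁻¹ *
          ∫⁻ t : ℝ, ENNReal.ofReal
            ((Real.log ‖L (m + 1 + t * Complex.I)‖ + r * Real.log |t| - Real.log A) ^ 2 / t ^ 2)) := by
  have hP : HS.EX.Pure (2 * m) α := HS.EX.pure_of_frobenius (by omega) h
  obtain ⟨ℓ, h1, h2⟩ := HS.EX.main hP
  have hpt : ∀ r A : ℝ, ∀ C : ℝ, 0 ≤ C → meanSquare m α r A ≤ ENNReal.ofReal C →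
      ∀ s : ℂ, (m : ℝ) + 1 < s.re →
        ‖ℓ s + r * Complex.log (s - (m + 1)) - Real.log A‖ ^ 2 ≤
          C * ‖s - (m + 1)‖ ^ 2 / (2 * (s.re - (m + 1))) := by
    intro r A C hC hb s hs
    rw [meanSquare_eq] at hb
    have h3 := (h2 r A).2 C hC hb s (by rw [edge_eq]; exact hs)
    rw [edge_eqc, edge_eq] at h3
    exact h3
  refine ⟨ℓ, (isLog_iff m α ℓ).2 h1, fun r A hA => ⟨?_, hpt r A, fun hf => ?_, fun L hL => ?_⟩⟩
  · simp only [meanSquare_eq, vertical_eq]
    exact (h2 r A).1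
  · -- the real limit
    set C : ℝ := (meanSquare m α r A).toReal with hC
    have hC0 : 0 ≤ C := ENNReal.toReal_nonneg
    have hb : meanSquare m α r A ≤ ENNReal.ofReal C := by rw [hC, ENNReal.ofReal_toReal hf.ne]
    have h3 : Tendsto (fun x : ℝ => ℓ x + r * Complex.log ((x : ℂ) - (m + 1)) - Real.log A)
        (𝓝[>] ((m : ℝ) + 1)) (𝓝 0) := by
      have h4 : Tendsto (fun x : ℝ => √(C * (x - ((m : ℝ) + 1)) / 2)) (𝓝[>] ((m : ℝ) + 1)) (𝓝 0) := by
        have h5 : Continuous fun x : ℝ => √(C * (x - ((m : ℝ) + 1)) / 2) := by fun_prop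
        have h6 := h5.tendsto ((m : ℝ) + 1)
        rw [sub_self, mul_zero, zero_div, Real.sqrt_zero] at h6
        exact h6.mono_left nhdsWithin_le_nhds
      refine squeeze_zero_norm' ?_ h4
      filter_upwards [self_mem_nhdsWithin] with x hx
      have hx1 : (m : ℝ) + 1 < x := hx
      apply Real.le_sqrt_of_sq_le
      have h5 := hpt r A C hC0 hb x (by rw [Complex.ofReal_re]; exact hx1)
      rw [Complex.ofReal_re] at h5
      refine h5.trans (le_of_eq ?_)
      have h6 : ‖(x : ℂ) - (m + 1)‖ = x - (m + 1) := by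
        have : (x : ℂ) - (m + 1) = ((x - (m + 1) : ℝ) : ℂ) := by push_cast; rfl
        rw [this, Complex.norm_real, Real.norm_of_nonneg (by linarith)]
      rw [h6]
      have h7 : x - ((m : ℝ) + 1) ≠ 0 := by linarith
      field_simp
    have h4 := (h3.add_const ((Real.log A : ℝ) : ℂ)).cexp
    rw [zero_add, ← Complex.ofReal_exp, Real.exp_log hA] at h4
    refine h4.congr' ?_
    filter_upwards [self_mem_nhdsWithin] with x hx
    have hx1 : (0 : ℝ) < x - (m + 1) := by
      have : (m : ℝ) + 1 < x := hx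
      linarith
    have e : (x : ℂ) - (m + 1) = ((x - (m + 1) : ℝ) : ℂ) := by push_cast; rfl
    rw [sub_add_cancel, Complex.exp_add, mul_comm, e, ← Complex.ofReal_log hx1.le, ← Complex.ofReal_mul,
      ← Complex.ofReal_exp, Real.rpow_def_of_pos hx1, mul_comm r]
  · obtain ⟨h3, h4⟩ := HS.EX.main' hP ((continuation_iff m α L).1 hL) r hA
    unfold PoleAt
    rw [meanSquare_eq]
    rw [edge_eqc] at h3 h4
    exact ⟨h3, h4⟩

end Pool.Agent.Results.MP_058a58_ag.EdgeFormula
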