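import Pool.Agent.Y139.SM.Final

/-!
# Self-products and Tate's conjecture on the pole over all number fields

`X` is a smooth projective variety over a number field `K`, for example over `ℚ`, of dimension `d`,
`0 ≤ m ≤ d`, `N` the `2m`-th Betti number and `V = A^m(X) ⊗ ℚ` the space of the classes of the algebraic
cycles of codimension `m` defined over the algebraic closure.  The transcendental part `T` is the complement
of `V(-m)` in `H^{2m}(X)`, of dimension `s = N - dim V`; `T ⊗ T` is a part of `H^{4m}(X × X)` and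
`T^{⊗ 4}` of `H^{8m}(X^4)`, and the edges of their `L`-functions are `2m + 1` and `4m + 1`.  For an Artin
representation `χ` of `K`, Tate's conjecture predicts for `L(H^{2m}(X) ⊗ χ, s)` a pole of order
`dim (V ⊗ χ)^{Gal(K̄/K)}` at `m + 1`, and for `L(H^{2m}(X_F), s)`, `F ⊇ K` a number field, a pole of order
`rank B^m(X_F)`.  An order is understood as in the problem, or in the weaker sense that
`x(L) = log |L(edge + ε)| / log(1/ε)` has an integral limit as `ε → 0+`.
The definitions are in `Pool.Agent.Y139.SM.Defs`, `Pool.Agent.W353.AT.TDefs`, `Pool.Agent.W353.AT.Defs`,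
`Pool.Agent.W353.TD.Defs`, `Pool.Agent.W353.EH.Defs` and `Pool.Agent.W353.EF.Defs`: `IsTensorSystem`: the Euler
factors of `L(T^{⊗ r} ⊗ χ, s)`; `TensorPole X d m N ρ r χ k`: its pole at the edge has the order `k`;
`TwistDefect X d m N ρ χ δ`: the order of the pole of `L(H^{2m}(X) ⊗ χ, s)` is smaller by `δ` than predicted.
-/

set_option autoImplicit false

namespace Pool.Agent.Results.MP_058a58_ag.SelfProducts

open NumberField IsDedekindDomain Filter Topology Polynomial
open Pool.Agent.W353.EF (LFun)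
open Pool.Agent.W353.EH (edgePoint size)
open Pool.Agent.W353.AT (IsArtin IsTwistedSystem twistRank TwistDefect)
open Pool.Agent.W353.TD (IsPart rank)
open Pool.Agent.Y139.SM (IsTensorSystem TensorPole)

section
variable {K : Type} [Field K] [NumberField K] {l : ℕ} (X : Set (MvPolynomial (Fin l) (𝓞 K)))
  (d m N : ℕ) {V : Type} [AddCommGroup V] [Module ℚ V] [FiniteDimensional ℚ V]
  (ρ : Representation ℚ Gal(AlgebraicClosure K/K) V)

/-- The trivial representation of dimension one. -/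
noncomputable abbrev one (K : Type) [Field K] : Representation ℂ Gal(AlgebraicClosure K/K) (Fin 1 → ℂ) := 1

/-- The inequality (no continuation is assumed) for an irreducible Artin representation `χ` of dimension `n`
and an Artin representation `ψ` with the character `|χ|²`: the `L`-function of `H^{2m}(X) ⊗ χ` is not zero at
`m + 1 + ε` for small `ε > 0`, and `|x(H^{2m}(X) ⊗ χ) - dim (V ⊗ χ)^{Gal(K̄/K)}|` is at most
`(x(T ⊗ T) + 1) / 2 - (x(T^{⊗ 4}) - 2 x(T ⊗ T ⊗ ψ) + 1) / (2 (s + n)²) + η`. -/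
def Inequality {n n' : ℕ} (χ : Representation ℂ Gal(AlgebraicClosure K/K) (Fin n → ℂ))
    (ψ : Representation ℂ Gal(AlgebraicClosure K/K) (Fin n' → ℂ)) : Prop :=
  ∀ B B₂ Bψ B₄ : HeightOneSpectrum (𝓞 K) → ℂ[X], IsTwistedSystem X d (2 * m) N χ 0 B →
    IsTensorSystem X d m N ρ 2 (one K) B₂ → IsTensorSystem X d m N ρ 2 ψ Bψ →
    IsTensorSystem X d m N ρ 4 (one K) B₄ →
    (∀ᶠ ε : ℝ in 𝓝[>] 0, LFun B (edgePoint (2 * m) 0 + ε) ≠ 0) ∧
    ∀ η : ℝ, 0 < η → ∀ᶠ ε : ℝ in 𝓝[>] 0, |size (2 * m) 0 B ε - twistRank ρ χ| ≤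
      (size (2 * (2 * m)) 0 B₂ ε + 1) / 2 -
        (size (2 * (4 * m)) 0 B₄ ε - 2 * size (2 * (2 * m)) 0 Bψ ε + 1) /
          (2 * (((N - Module.finrank ℚ V : ℕ) : ℝ) + n) ^ 2) + η

/-- Tate's conjecture on the pole for all `X_F`: for every number field `F ⊇ K`, `L(H^{2m}(X_F), s)` is not zero
at `m + 1 + ε` for small `ε > 0`, and `x(H^{2m}(X_F))` tends to the rank over `F`. -/
def PoleOverAllFields : Prop :=
  ∀ (F : IntermediateField K (AlgebraicClosure K)) [NumberField F]
    (B : HeightOneSpectrum (𝓞 F) → ℂ[X]), Pool.Agent.W353.EF.IsEulerSystem X d (2 * m) N B →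
    (∀ᶠ ε : ℝ in 𝓝[>] 0, LFun B (((2 * m : ℕ) : ℂ) / 2 + 1 + ε) ≠ 0) ∧
    Tendsto (Pool.Agent.W353.EF.size (2 * m) B) (𝓝[>] 0) (𝓝 (rank ρ F : ℝ))

end

/-- **Self-products and the pole.**
* Let `χ` be an irreducible Artin representation of `K` and `ψ` an Artin representation with the character
  `|χ|²`.  Then the inequality holds.  If `L(T ⊗ T, s)` and `L(T ⊗ T ⊗ ψ, s)` have simple poles at `2m + 1`
  and the pole of `L(T^{⊗ 4}, s)` at `4m + 1` is not simple, then the order of the pole of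
  `L(H^{2m}(X) ⊗ χ, s)` at `m + 1`, if it exists, is the one predicted by Tate.
* Suppose that `L(T ⊗ T ⊗ ψ, s)` has a pole of order `dim ψ^{Gal(K̄/K)}` at `2m + 1` for all Artin
  representations `ψ` of `K`, and that the pole of `L(T^{⊗ 4}, s)` at `4m + 1` is not simple.  If the
  `L(H^{2m}(X) ⊗ χ, s)`, `χ` irreducible, have (integral) orders at `m + 1`, then the pole of
  `L(H^{2m}(X_F), s)` at `m + 1` has the order predicted by Tate for ALL number fields `F ⊇ K`. -/
theorem result (K : Type) [Field K] [NumberField K] (l d m N : ℕ)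
    (X : Set (MvPolynomial (Fin l) (𝓞 K))) (V : Type) [AddCommGroup V] [Module ℚ V]
    [FiniteDimensional ℚ V] (ρ : Representation ℚ Gal(AlgebraicClosure K/K) V) (hm : m ≤ d)
    (hV : IsPart X d m N ρ) :
    (∀ (n : ℕ) (χ : Representation ℂ Gal(AlgebraicClosure K/K) (Fin n → ℂ)), IsArtin χ →
      χ.IsIrreducible → ∀ (n' : ℕ) (ψ : Representation ℂ Gal(AlgebraicClosure K/K) (Fin n' → ℂ)),
      IsArtin ψ → (∀ g, ψ.character g = ((‖χ.character g‖ ^ 2 : ℝ) : ℂ)) →
      Inequality X d m N ρ χ ψ ∧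
      ∀ k : ℕ, TensorPole X d m N ρ 2 (one K) 1 → TensorPole X d m N ρ 2 ψ 1 →
        TensorPole X d m N ρ 4 (one K) k → k ≠ 1 →
        ∀ δ : ℤ, TwistDefect X d m N ρ χ δ → δ = 0) ∧
    ((∀ (n : ℕ) (ψ : Representation ℂ Gal(AlgebraicClosure K/K) (Fin n → ℂ)), IsArtin ψ →
        TensorPole X d m N ρ 2 ψ (Module.finrank ℂ ψ.invariants)) →
      ∀ k : ℕ, TensorPole X d m N ρ 4 (one K) k → k ≠ 1 →
      (∀ (n : ℕ) (χ : Representation ℂ Gal(AlgebraicClosure K/K) (Fin n → ℂ)), IsArtin χ →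
        χ.IsIrreducible → ∃ δ : ℤ, TwistDefect X d m N ρ χ δ) →
      PoleOverAllFields X d m N ρ) :=
  Pool.Agent.Y139.SM.selfProducts hm hV

end Pool.Agent.Results.MP_058a58_ag.SelfProducts
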