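import Pool.Agent.V11286.RL.Tup
import Pool.Agent.Results.MP_058a58_ag.ManyFactors

/-!
# Tate's conjecture on the order of the pole for all products of elliptic curves with indices in short windows

`E_0, E_1, …` is a sequence of modular elliptic curves over `ℚ`, with at most `M` members in every isogeny class (for
example all elliptic curves over `ℚ` in some order), and `X` is a smooth projective variety over `ℚ`. Let `v` be a
sequence with exponent of convergence at most `τ` (for `b ^ i` it is `0`) and `θ < 1`. For all `α ∈ ℝ ^ k` outside a set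
of dimension at most `(k - 1 + τ) / (1 - θ)`, for all `X` at once and all but finitely many `i`: for ALL tuples `l` in the
window `|l_j - v_i α_j| ≤ v_i ^ θ` the order of `L(H^n(X × E_{l_1} × ⋯ × E_{l_k}), s)` at the edge `s = n/2 + 1` is the
one predicted by the conjecture of Tate for curves which are not isogenous. Nothing is assumed about analytic
continuation: the predicted order is always a limit value of `log |L(n/2+1+ε)| / log(1/ε)` (up to any `c > 0`), and it is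
the order if the order exists.
-/

set_option autoImplicit false

open Filter Topology Polynomial MeasureTheory

namespace Pool.Agent.Results.MP_058a58_ag.WindowsOfProducts

open Pool.Agent.Y149.CM (LFun)
open Pool.Agent.Y149.PK hiding dimH
open Pool.Agent.V11286.RL
open Pool.Agent.V35.WM (ExpLe Thin expLe_geom expLe_pow)

/-- the tuples for which the difference between `log |L(H^n(X × E_l), n/2+1+ε)| / log(1/ε)` and the predicted value
stays away from zero (it is at least `1 / (q + 1)` for all small `ε`) -/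
def Far (B : List ℕ → ℕ → Nat.Primes → ℂ[X]) (k n q : ℕ) : Set (Fin k → ℕ) :=
  {l | ∀ᶠ ε : ℝ in 𝓝[>] 0, 1 / ((q : ℝ) + 1) ≤
    |size n (B (List.ofFn l) n) ε - evenPart (fun c => size c (B [] c) ε) k n|}

/-- the tuples for which the order of `L(H^n(X × E_l), s)` exists and is not the predicted one -/
def Off (B : List ℕ → ℕ → Nat.Primes → ℂ[X]) (r₀ : ℕ → ℤ) (k n : ℕ) : Set (Fin k → ℕ) :=
  {l | ∃ r : ℤ, HasOrder n (B (List.ofFn l) n) (-r) ∧ r ≠ evenPart r₀ k n}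

lemma far_thin {M : ℕ} {a b : ℕ → ℤ} (hE : IsEllipticFamily M a b) {X : Variety}
    {B : List ℕ → ℕ → Nat.Primes → ℂ[X]} (hB : IsEllSystem X a b B) {k : ℕ} (hk : 1 ≤ k) (n q : ℕ) :
    Thin (Far B k n q) rvec ((k : ℝ) - 1) := by
  classical
  obtain ⟨D, hD⟩ : ∃ D : ℝ, D = M / 2 * ((Pool.Agent.Y149.PK.dimH X.betti k n : ℝ) -
    (evenPart X.betti k n : ℕ)) ^ 2 := ⟨_, rfl⟩
  have hD0 : 0 ≤ D := by rw [hD]; positivity
  have hq : (0 : ℝ) < (q : ℝ) + 1 := by positivity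
  refine thin_of_box hk _ ((D + 1) * ((q : ℝ) + 1) ^ 2) (by positivity) fun N A hA => ?_
  have h1 := ((Pool.Agent.Results.MP_058a58_ag.ManyFactors.result ℕ M a b hE).1 X B hB).1 k n
    (Finset.range (N + 1)) 1 one_pos
  have h2 : ∀ᶠ ε : ℝ in 𝓝[>] 0, ∀ l ∈ A, 1 / ((q : ℝ) + 1) ≤
      |size n (B (List.ofFn l) n) ε - evenPart (fun c => size c (B [] c) ε) k n| := by
    rw [Filter.eventually_all_finset]
    intro l hl
    exact (hA l hl).1
  obtain ⟨ε, ⟨-, -, h3⟩, h4⟩ := (h1.and h2).exists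
  rw [← hD, Finset.card_range] at h3
  have hsub : A ⊆ tuples (Finset.range (N + 1)) k := by
    intro l hl
    rw [tuples, Fintype.mem_piFinset]
    intro i
    rw [Finset.mem_range]
    have := (hA l hl).2 i
    omega
  have h5 : (A.card : ℝ) * (1 / ((q : ℝ) + 1)) ^ 2 ≤
      ∑ l ∈ tuples (Finset.range (N + 1)) k,
        (size n (B (List.ofFn l) n) ε - evenPart (fun c => size c (B [] c) ε) k n) ^ 2 := by
    calc (A.card : ℝ) * (1 / ((q : ℝ) + 1)) ^ 2 = ∑ _l ∈ A, (1 / ((q : ℝ) + 1)) ^ 2 := by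
          rw [Finset.sum_const, nsmul_eq_mul]
      _ ≤ ∑ l ∈ A, (size n (B (List.ofFn l) n) ε - evenPart (fun c => size c (B [] c) ε) k n) ^ 2 := by
          refine Finset.sum_le_sum fun l hl => ?_
          rw [← sq_abs (size n (B (List.ofFn l) n) ε - _)]
          exact pow_le_pow_left₀ (by positivity) (h4 l hl) 2
      _ ≤ _ := Finset.sum_le_sum_of_subset_of_nonneg hsub fun _ _ _ => sq_nonneg _
  have h6 : (1 : ℝ) ≤ ((N : ℝ) + 1) ^ (k - 1) := one_le_pow₀ (by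
    have : (0 : ℝ) ≤ N := Nat.cast_nonneg N
    linarith)
  have h7 : (A.card : ℝ) * (1 / ((q : ℝ) + 1)) ^ 2 ≤ (D + 1) * ((N : ℝ) + 1) ^ (k - 1) := by
    refine h5.trans (h3.trans ?_)
    push_cast
    linarith
  rw [one_div, inv_pow, ← div_eq_mul_inv, div_le_iff₀ (by positivity)] at h7
  linarith

lemma off_thin {M : ℕ} {a b : ℕ → ℤ} (hE : IsEllipticFamily M a b) {X : Variety}
    {B : List ℕ → ℕ → Nat.Primes → ℂ[X]} (hB : IsEllSystem X a b B) {k : ℕ} (hk : 1 ≤ k) (n : ℕ) {r₀ : ℕ → ℤ}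
    (hr₀ : ∀ c, c ≤ n → Even (n - c) → HasOrder c (B [] c) (-(r₀ c))) :
    Thin (Off B r₀ k n) rvec ((k : ℝ) - 1) := by
  classical
  refine thin_of_box hk _ ((M : ℝ) * ((Pool.Agent.Y149.PK.dimH X.betti k n : ℤ) -
    (evenPart X.betti k n : ℕ)) ^ 2) (by positivity) fun N A hA => ?_
  have hch : ∀ l : Fin k → ℕ, ∃ r : ℤ, l ∈ A → HasOrder n (B (List.ofFn l) n) (-r) ∧ r ≠ evenPart r₀ k n := by
    intro l
    by_cases hl : l ∈ A
    · obtain ⟨r, h1, h2⟩ := (hA l hl).1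
      exact ⟨r, fun _ => ⟨h1, h2⟩⟩
    · exact ⟨0, fun h => absurd h hl⟩
  choose r hr using hch
  have h1 := ((Pool.Agent.Results.MP_058a58_ag.ManyFactors.result ℕ M a b hE).1 X B hB).2 k n r₀ hr₀
    (Finset.range (N + 1)) A r (fun l hl => ⟨fun i => Finset.mem_range.2 (by
      have := (hA l hl).2 i
      omega), (hr l hl).1⟩)
  rw [Finset.card_range] at h1
  have h2 : (A.card : ℤ) ≤ ∑ l ∈ A, (r l - evenPart r₀ k n) ^ 2 := by
    calc (A.card : ℤ) = ∑ _l ∈ A, 1 := by rw [Finset.sum_const, nsmul_eq_mul, mul_one]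
      _ ≤ _ := by
        refine Finset.sum_le_sum fun l hl => ?_
        have h3 : r l - evenPart r₀ k n ≠ 0 := sub_ne_zero.2 (hr l hl).2
        have h4 : 0 < (r l - evenPart r₀ k n) ^ 2 := by positivity
        exact h4
  have h5 : (A.card : ℤ) ≤ M * ((Pool.Agent.Y149.PK.dimH X.betti k n : ℤ) -
      (evenPart X.betti k n : ℕ)) ^ 2 * ((N + 1 : ℕ) : ℤ) ^ (k - 1) := by
    have h6 : (0 : ℤ) ≤ A.card := Nat.cast_nonneg _
    linarith
  have h7 : ((A.card : ℤ) : ℝ) ≤ ((M * ((Pool.Agent.Y149.PK.dimH X.betti k n : ℤ) -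
      (evenPart X.betti k n : ℕ)) ^ 2 * ((N + 1 : ℕ) : ℤ) ^ (k - 1) : ℤ) : ℝ) := by exact_mod_cast h5
  push_cast at h7 ⊢
  exact h7

/-- **Theorem.** `E_0, E_1, …` (`E_i : y² = x³ + a_i x + b_i`) are modular elliptic curves over `ℚ`, at most `M` in every
isogeny class, `X_0, X_1, …` are smooth projective varieties over `ℚ`, and `B j l n` are the Euler factors of
`L(H^n(X_j × E_{l_1} × ⋯ × E_{l_k}), s)`; `k ≥ 1`, `v ≥ 1` is a sequence of exponent of convergence at most `τ ≥ 0` and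
`θ < 1`.
1. There is a set `E ⊆ ℝ ^ k` of Hausdorff dimension at most `(k - 1 + τ) / (1 - θ)`, and of Lebesgue measure zero if
`k - 1 + τ < (1 - θ) k`, such that for all `α` outside `E`, all `j`, `n`, all `c > 0` and all but finitely many `i`: for
ALL `k`-tuples `l` of indices with `|l_m - v_i α_m| ≤ (v_i) ^ θ` (all `m`) there are arbitrarily small `ε > 0` such that
`log |L(H^n(X_j × E_l), n/2+1+ε)| / log(1/ε)` differs by less than `c` from
`∑_a C(k,a) log |L(H^{n-2a}(X_j), n/2-a+1+ε)| / log(1/ε)`.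
2. If the `L(H^c(X_j), s)` have poles of order `r₀ j c` at the edge, then there is such a set `E` with: for all `α` outside
`E`, all `j`, `n` and all but finitely many `i`, for ALL such tuples `l`: if `L(H^n(X_j × E_l), s)` has an order `-r` at
`s = n/2 + 1`, then `r = ∑_a C(k,a) r₀ j (n-2a)`.
The sequences `b ^ i` and `(i + 1) ^ a` have exponent of convergence at most `0` and `1 / a`. -/
theorem result (M : ℕ) (a b : ℕ → ℤ) (hE : IsEllipticFamily M a b) (X : ℕ → Variety)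
    (B : ℕ → List ℕ → ℕ → Nat.Primes → ℂ[X]) (hB : ∀ j, IsEllSystem (X j) a b (B j)) (k : ℕ) (hk : 1 ≤ k)
    (v : ℕ → ℝ) (τ θ : ℝ) (hv : ∀ i, 1 ≤ v i) (hτ : 0 ≤ τ) (hvτ : ExpLe v τ) (hθ : θ < 1) :
    (∃ E : Set (Fin k → ℝ), _root_.dimH E ≤ ENNReal.ofReal (((k : ℝ) - 1 + τ) / (1 - θ)) ∧
      ((k : ℝ) - 1 + τ < (1 - θ) * k → volume E = 0) ∧
      ∀ α : Fin k → ℝ, α ∉ E → ∀ j n : ℕ, ∀ c : ℝ, 0 < c → ∃ i₀ : ℕ, ∀ i : ℕ, i₀ ≤ i → ∀ l : Fin k → ℕ,
        (∀ m, |(l m : ℝ) - v i * α m| ≤ (v i) ^ θ) →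
        ∃ᶠ ε : ℝ in 𝓝[>] 0, |size n (B j (List.ofFn l) n) ε - evenPart (fun c => size c (B j [] c) ε) k n| < c) ∧
    (∀ r₀ : ℕ → ℕ → ℤ, (∀ j c, HasOrder c (B j [] c) (-(r₀ j c))) →
      ∃ E : Set (Fin k → ℝ), _root_.dimH E ≤ ENNReal.ofReal (((k : ℝ) - 1 + τ) / (1 - θ)) ∧
      ((k : ℝ) - 1 + τ < (1 - θ) * k → volume E = 0) ∧
      ∀ α : Fin k → ℝ, α ∉ E → ∀ j n : ℕ, ∃ i₀ : ℕ, ∀ i : ℕ, i₀ ≤ i → ∀ l : Fin k → ℕ,
        (∀ m, |(l m : ℝ) - v i * α m| ≤ (v i) ^ θ) →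
        ∀ r : ℤ, HasOrder n (B j (List.ofFn l) n) (-r) → r = evenPart (r₀ j) k n) ∧
    (∀ b : ℝ, 1 < b → ExpLe (fun i : ℕ => b ^ i) 0) ∧
    (∀ a : ℝ, 0 < a → ExpLe (fun i : ℕ => ((i : ℝ) + 1) ^ a) (1 / a)) := by
  refine ⟨?_, fun r₀ hr₀ => ?_, fun b hb => expLe_geom b hb, fun a ha => expLe_pow a ha⟩
  · obtain ⟨E, h1, h2, h3⟩ := wins (κ := ℕ × ℕ × ℕ) hk (fun x => Far (B x.1) k x.2.1 x.2.2)
      (fun x => far_thin hE (hB x.1) hk x.2.1 x.2.2) hv hτ hvτ hθ
    refine ⟨E, h1, h2, fun α hα j n c hc => ?_⟩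
    obtain ⟨q, hq⟩ := exists_nat_one_div_lt hc
    obtain ⟨i₀, h4⟩ := h3 α hα (j, n, q)
    refine ⟨i₀, fun i hi l hl => ?_⟩
    have h5 := h4 i hi l hl
    simp only [Far, Set.mem_setOf_eq, Filter.not_eventually, not_le] at h5
    exact h5.mono fun ε h => h.trans hq
  · obtain ⟨E, h1, h2, h3⟩ := wins (κ := ℕ × ℕ) hk (fun x => Off (B x.1) (r₀ x.1) k x.2)
      (fun x => off_thin hE (hB x.1) hk x.2 (fun c _ _ => hr₀ x.1 c)) hv hτ hvτ hθ
    refine ⟨E, h1, h2, fun α hα j n => ?_⟩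
    obtain ⟨i₀, h4⟩ := h3 α hα (j, n)
    refine ⟨i₀, fun i hi l hl r hr => ?_⟩
    by_contra hne
    exact h4 i hi l hl ⟨r, hr, hne⟩

end Pool.Agent.Results.MP_058a58_ag.WindowsOfProducts
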